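import Pool.Agent.Helper11.PC.Defs
import Pool.Agent.Helper28.Para.Embed
import Pool.Agent.Helper8.PC.CHI

/-! # FREEX: independent elements of a parafree group generate a free group (project PC) -/

set_option autoImplicit false

namespace Pool.Agent.Helper16.PC

open Pool.Agent.Helper11.PC Pool.Agent.Helper28.Para Pool.Agent.Helper7.Comm
  Pool.Agent.Helper49.MagnusW

universe u v

section Syll

variable {ι : Type} [DecidableEq ι]

/-- Series supported on words in the letter `i`. -/
def Sup1 (i : ι) (f : NC ι ℚ) : Prop := ∀ w : List ι, (∃ x ∈ w, x ≠ i) → f w = 0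

omit [DecidableEq ι] in
theorem Sup1.mul {i : ι} {f g : NC ι ℚ} (hf : Sup1 i f) (hg : Sup1 i g) : Sup1 i (f * g) := by
  rintro w ⟨x, hx, hxi⟩
  rw [NC.mul_apply]
  refine Finset.sum_eq_zero fun k _ => ?_
  rw [← List.take_append_drop k w, List.mem_append] at hx
  rcases hx with hx | hx
  · rw [hf _ ⟨x, hx, hxi⟩, zero_mul]
  · rw [hg _ ⟨x, hx, hxi⟩, mul_zero]

omit [DecidableEq ι] in
theorem Sup1.one (i : ι) : Sup1 i (1 : NC ι ℚ) := by
  rintro w ⟨x, hx, -⟩
  cases w with
  | nil => exact absurd hx List.not_mem_nil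
  | cons a w => rfl

/-- The subgroup of units supported on the letter `i`. -/
def supSub (i : ι) : Subgroup (NC ι ℚ)ˣ where
  carrier := {u | Sup1 i (u : NC ι ℚ) ∧ Sup1 i ((u⁻¹ : (NC ι ℚ)ˣ) : NC ι ℚ)}
  one_mem' := by
    constructor
    · rw [Units.val_one]; exact Sup1.one i
    · rw [inv_one, Units.val_one]; exact Sup1.one i
  mul_mem' := by
    rintro a b ⟨h1, h2⟩ ⟨h3, h4⟩
    constructor
    · rw [Units.val_mul]; exact h1.mul h3
    · rw [mul_inv_rev, Units.val_mul]; exact h4.mul h2
  inv_mem' := by
    rintro a ⟨h1, h2⟩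
    exact ⟨h2, by rw [inv_inv]; exact h1⟩

theorem magUnit_mem (i : ι) : magUnit ℚ i ∈ supSub i := by
  constructor
  · rintro w ⟨x, hx, hxi⟩
    change (1 + NC.letter i : NC ι ℚ) w = 0
    cases w with
    | nil => exact absurd hx List.not_mem_nil
    | cons a w =>
      rw [NC.add_apply, NC.one_cons, zero_add]
      change (if a :: w = [i] then (1 : ℚ) else 0) = 0
      rw [if_neg]
      intro h
      rw [h, List.mem_singleton] at hx
      exact hxi hx
  · rintro w ⟨x, hx, hxi⟩
    change (if w = List.replicate w.length i then ((-1 : ℚ)) ^ w.length else 0) = 0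
    rw [if_neg]
    intro h
    rw [h] at hx
    exact hxi (List.eq_of_mem_replicate hx)

theorem mag_zpow_sup (i : ι) (n : ℤ) :
    Sup1 i (mag ℚ (FreeGroup.of i ^ n) : NC ι ℚ) := by
  have h : (mag ℚ (FreeGroup.of i ^ n) : (NC ι ℚ)ˣ) ∈ supSub i := by
    rw [map_zpow]
    refine Subgroup.zpow_mem _ ?_ n
    have : (mag ℚ (FreeGroup.of i) : (NC ι ℚ)ˣ) = magUnit ℚ i := by simp [mag]
    rw [this]
    exact magUnit_mem i
  exact h.1

theorem mag_zpow_coeff (i : ι) (n : ℤ) :
    (mag ℚ (FreeGroup.of i ^ n) : NC ι ℚ) [i] = n := by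
  have h := chi_apply (mag_hμ (X := ι) (fun _ => 1)) i (FreeGroup.of i ^ n)
  rw [map_zpow, chi_apply] at h
  have h1 : (mag ℚ (FreeGroup.of i) : NC ι ℚ) [i] = 1 := by
    rw [mag_of, NC.add_apply, NC.one_cons, zero_add]
    change (if [i] = [i] then (1 : ℚ) else 0) = 1
    rw [if_pos rfl]
  rw [h1, ← ofAdd_zsmul] at h
  have h2 := Multiplicative.ofAdd.injective h
  rw [zsmul_one] at h2
  exact h2.symm

/-- The element of the free group described by a list of syllables. -/
def syl (L : List (ι × ℤ)) : FreeGroup ι := (L.map fun p => FreeGroup.of p.1 ^ p.2).prod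

theorem coeff_syl : ∀ (L : List (ι × ℤ)) (w : List ι), L.length ≤ w.length →
    w.IsChain (· ≠ ·) →
    (mag ℚ (syl L) : NC ι ℚ) w =
      if w = L.map Prod.fst then (L.map fun p => (p.2 : ℚ)).prod else 0 := by
  intro L
  induction L with
  | nil =>
    intro w _ _
    simp only [syl, List.map_nil, List.prod_nil, map_one, Units.val_one]
    cases w with
    | nil => simp
    | cons a w => simp
  | cons p L ih =>
    intro w hw hc
    cases w with
    | nil => simp at hw
    | cons a w =>
      have hlen : L.length ≤ w.length := by simpa using hw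
      have hcw : w.IsChain (· ≠ ·) := hc.tail
      have e : (mag ℚ (syl (p :: L)) : NC ι ℚ) =
          (mag ℚ (FreeGroup.of p.1 ^ p.2) : NC ι ℚ) * (mag ℚ (syl L) : NC ι ℚ) := by
        rw [← Units.val_mul, ← map_mul]
        simp [syl]
      set f : NC ι ℚ := (mag ℚ (FreeGroup.of p.1 ^ p.2) : NC ι ℚ) with hf
      set g : NC ι ℚ := (mag ℚ (syl L) : NC ι ℚ) with hg
      have h1 : g (a :: w) = 0 := by
        rw [ih (a :: w) (by rw [List.length_cons]; omega) hc, if_neg]
        intro h
        have := congrArg List.length h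
        simp at this
        omega
      rw [e, NC.mul_cons, h1, mul_zero, zero_add]
      by_cases hap : a = p.1
      · subst hap
        have h2 : (NC.D p.1 f * g) w = (p.2 : ℚ) * g w := by
          have h0 : NC.D p.1 f [] = (p.2 : ℚ) := by
            rw [NC.D_apply, hf, mag_zpow_coeff]
          cases w with
          | nil => rw [NC.mul_nil, h0]
          | cons b w =>
            rw [NC.mul_cons, h0]
            have hb : b ≠ p.1 := by
              intro h
              have := hc.rel
              exact this h.symm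
            have h3 : NC.D b (NC.D p.1 f) = 0 := by
              ext u
              rw [NC.D_apply, NC.D_apply, NC.zero_apply]
              exact mag_zpow_sup p.1 p.2 _ ⟨b, by simp, hb⟩
            rw [h3, zero_mul, NC.zero_apply, add_zero]
        rw [h2, ih w hlen hcw]
        by_cases hwL : w = L.map Prod.fst
        · rw [if_pos hwL, if_pos (by rw [List.map_cons, hwL]), List.map_cons, List.prod_cons]
        · rw [if_neg hwL, if_neg (by
            rw [List.map_cons]
            intro h
            exact hwL (List.cons.inj h).2), mul_zero]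
      · have h3 : NC.D a f = 0 := by
          ext u
          rw [NC.D_apply, NC.zero_apply]
          exact mag_zpow_sup p.1 p.2 _ ⟨a, by simp, hap⟩
        rw [h3, zero_mul, NC.zero_apply, if_neg (by
          rw [List.map_cons]
          intro h
          exact hap (List.cons.inj h).1)]

/-- Normal forms. -/
def HasNF (g : FreeGroup ι) : Prop :=
  ∃ L : List (ι × ℤ), (∀ p ∈ L, p.2 ≠ 0) ∧ L.IsChain (fun p q => p.1 ≠ q.1) ∧ syl L = g

theorem hasNF_mul (i : ι) (n : ℤ) (g : FreeGroup ι) (hg : HasNF g) :
    HasNF (FreeGroup.of i ^ n * g) := by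
  obtain ⟨L, h0, hc, rfl⟩ := hg
  by_cases hn : n = 0
  · subst hn
    refine ⟨L, h0, hc, ?_⟩
    simp
  cases L with
  | nil =>
    refine ⟨[(i, n)], by simpa using hn, by simp, by simp [syl]⟩
  | cons p L =>
    by_cases hi : i = p.1
    · subst hi
      by_cases hs : n + p.2 = 0
      · refine ⟨L, fun q hq => h0 q (List.mem_cons_of_mem _ hq), hc.tail, ?_⟩
        have : syl (p :: L) = FreeGroup.of p.1 ^ p.2 * syl L := by simp [syl]
        rw [this, ← mul_assoc, ← zpow_add, hs, zpow_zero, one_mul]
      · refine ⟨(p.1, n + p.2) :: L, ?_, ?_, ?_⟩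
        · intro q hq
          rcases List.mem_cons.1 hq with h | h
          · rw [h]; exact hs
          · exact h0 q (List.mem_cons_of_mem _ h)
        · cases L with
          | nil => simp
          | cons q L =>
            rw [List.isChain_cons_cons] at hc ⊢
            exact hc
        · have : syl (p :: L) = FreeGroup.of p.1 ^ p.2 * syl L := by simp [syl]
          rw [this, ← mul_assoc, ← zpow_add]
          simp [syl]
    · refine ⟨(i, n) :: p :: L, ?_, ?_, ?_⟩
      · intro q hq
        rcases List.mem_cons.1 hq with h | h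
        · rw [h]; exact hn
        · exact h0 q h
      · rw [List.isChain_cons_cons]
        exact ⟨hi, hc⟩
      · simp [syl]

theorem hasNF_all (g : FreeGroup ι) : HasNF g := by
  have key : ∀ g : FreeGroup ι, ∀ h : FreeGroup ι, HasNF h → HasNF (g * h) := by
    intro g
    induction g using FreeGroup.induction_on with
    | C1 => intro h hh; rwa [one_mul]
    | of x =>
      intro h hh
      have := hasNF_mul x 1 h hh
      rwa [zpow_one] at this
    | inv_of x _ =>
      intro h hh
      have := hasNF_mul x (-1) h hh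
      rwa [zpow_neg_one] at this
    | mul a b ha hb =>
      intro h hh
      rw [mul_assoc]
      exact ha _ (hb _ hh)
  have h1 : HasNF (1 : FreeGroup ι) := ⟨[], by simp, by simp, by simp [syl]⟩
  have := key g 1 h1
  rwa [mul_one] at this

theorem mag_eq_one {g : FreeGroup ι} (h : ∀ w : List ι, w ≠ [] → (mag ℚ g : NC ι ℚ) w = 0) :
    g = 1 := by
  obtain ⟨L, h0, hc, rfl⟩ := hasNF_all g
  by_contra hne
  have hL : L ≠ [] := by
    rintro rfl
    exact hne (by simp [syl])
  have h1 := coeff_syl L (L.map Prod.fst) (by simp) (by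
    rw [List.isChain_map]
    exact hc)
  rw [if_pos rfl, h _ (by simpa using hL)] at h1
  have h2 : (L.map fun p => (p.2 : ℚ)).prod ≠ 0 := by
    rw [Ne, List.prod_eq_zero_iff]
    intro h3
    obtain ⟨p, hp, hp0⟩ := List.mem_map.1 h3
    exact h0 p hp (by exact_mod_cast hp0)
  exact h2 h1.symm

end Syll

/-- Free groups of finite rank are residually nilpotent. -/
theorem free_resNilp {ι : Type} [Fintype ι] [DecidableEq ι] (g : FreeGroup ι)
    (h : ∀ n, g ∈ lcs (FreeGroup ι) n) : g = 1 := by
  refine mag_eq_one fun w hw => ?_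
  have h1 := (mem_lcs_iff g w.length).1 (h _) w (by simp [wt])
  rw [NC.sub_apply] at h1
  cases w with
  | nil => exact absurd rfl hw
  | cons a w => simpa using h1

/-! ## Units with given linear part -/

section Unit1

variable {ι : Type}

/-- The linear form with coefficients `q`. -/
def lin (q : ι → ℚ) : NC ι ℚ := ⟨fun w => match w with
  | [l] => q l
  | _ => 0⟩

theorem lin_nil (q : ι → ℚ) : lin q [] = 0 := rfl

theorem lin_one (q : ι → ℚ) (l : ι) : lin q [l] = q l := rfl

/-- The unit `1 + lin q`. -/
noncomputable def linU (q : ι → ℚ) : (NC ι ℚ)ˣ :=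
  Units.map (NC.substHom (fun _ : Unit => lin q) (fun _ => lin_nil q) : NC Unit ℚ →* NC ι ℚ)
    (magUnit ℚ ())

theorem linU_val (q : ι → ℚ) : (linU q : NC ι ℚ) = 1 + lin q := by
  change NC.subst (fun _ : Unit => lin q) (1 + NC.letter ()) = 1 + lin q
  rw [NC.subst_add _ (fun _ => lin_nil q), NC.subst_one _ (fun _ => lin_nil q),
    NC.subst_letter _ (fun _ => lin_nil q)]

/-- The constant coefficient. -/
def nilHom : NC ι ℚ →* ℚ where
  toFun f := f []
  map_one' := rfl
  map_mul' _ _ := rfl

end Unit1

theorem freex {X : Type v} {G : Type u} [Group G] (hG : IsParafreeOn X G) {r : ℕ}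
    (a : Fin r → G) (h : HomIndep a) :
    Function.Injective (FreeGroup.lift a : FreeGroup (Fin r) →* G) := by
  obtain ⟨s, hinj, hsurj⟩ := exists_good_hom hG
  have hchi := fun l : Fin r => Pool.Agent.Helper8.PC.chi a h l
  choose χ hχ hχa using hchi
  have hχ1 : ∀ l, χ l 1 = 0 := by
    intro l
    have := hχ l 1 1
    rw [mul_one] at this
    linarith
  -- the characters as homomorphisms
  set X1 : Fin r → G →* Multiplicative ℚ := fun l =>
    { toFun := fun g => Multiplicative.ofAdd (χ l g)
      map_one' := by rw [hχ1]; rfl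
      map_mul' := fun g g' => by rw [hχ]; rfl } with hX1
  have hX1a : ∀ l g, X1 l g = Multiplicative.ofAdd (χ l g) := fun l g => rfl
  have hχc : ∀ l, ∀ g ∈ lcs G 1, χ l g = 0 := by
    intro l g hg
    have h1 : lcs G 1 ≤ (X1 l).ker := by
      intro g hg
      rw [MonoidHom.mem_ker]
      have h2 : X1 l g ∈ lcs (Multiplicative ℚ) 1 := map_lcs_le (X1 l) 1 hg
      have h3 : lcs (Multiplicative ℚ) 1 = ⊥ := by
        change (⊤ : Subgroup (Multiplicative ℚ)).lowerCentralSeries 1 = ⊥
        rw [Subgroup.lowerCentralSeries_succ, eq_bot_iff, Subgroup.commutator_le]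
        intro x _ y _
        rw [Subgroup.mem_bot, commutatorElement_eq_one_iff_mul_comm]
        exact mul_comm _ _
      rw [h3, Subgroup.mem_bot] at h2
      exact h2
    have h2 := h1 hg
    rw [MonoidHom.mem_ker, hX1a] at h2
    exact Multiplicative.ofAdd.injective h2
  -- the homomorphism `φ`
  set φ : FreeGroup X →* (NC (Fin r) ℚ)ˣ :=
    FreeGroup.lift fun x => linU fun l => χ l (s (FreeGroup.of x)) with hφ
  have hφof : ∀ x, (φ (FreeGroup.of x) : NC (Fin r) ℚ) =
      1 + lin fun l => χ l (s (FreeGroup.of x)) := by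
    intro x
    rw [hφ, FreeGroup.lift_apply_of, linU_val]
  have hφnil : ∀ g, (φ g : NC (Fin r) ℚ) [] = 1 := by
    intro g
    have h1 : (Units.map (nilHom : NC (Fin r) ℚ →* ℚ)).comp φ = 1 := by
      ext x
      rw [MonoidHom.comp_apply, Units.coe_map, MonoidHom.one_apply, Units.val_one, hφof]
      change (1 : NC (Fin r) ℚ) [] + lin _ [] = 1
      rw [lin_nil, add_zero, NC.one_nil]
    have h2 := DFunLike.congr_fun h1 g
    have h3 := congrArg (fun u : ℚˣ => (u : ℚ)) h2
    exact h3
  have hφl : ∀ (l : Fin r) g, (φ g : NC (Fin r) ℚ) [l] = χ l (s g) := by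
    intro l g
    set c1 : FreeGroup X →* Multiplicative ℚ :=
      { toFun := fun g => Multiplicative.ofAdd ((φ g : NC (Fin r) ℚ) [l])
        map_one' := by rw [map_one, Units.val_one, NC.one_cons]; rfl
        map_mul' := fun g g' => by
          rw [map_mul, Units.val_mul, coeff_letter_mul (hφnil g) (hφnil g')]
          rfl } with hc1
    have h1 : c1 = (X1 l).comp s := by
      ext x
      change Multiplicative.ofAdd ((φ (FreeGroup.of x) : NC (Fin r) ℚ) [l]) =
        Multiplicative.ofAdd (χ l (s (FreeGroup.of x)))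
      rw [hφof, NC.add_apply, NC.one_cons, lin_one, zero_add]
    have h2 := DFunLike.congr_fun h1 g
    exact Multiplicative.ofAdd.injective h2
  rw [injective_iff_map_eq_one]
  intro w hw
  refine free_resNilp w fun Q => ?_
  refine (⊤ : Subgroup (FreeGroup (Fin r))).lowerCentralSeries_antitone (Nat.le_succ Q) ?_
  choose W hW using fun j : Fin r => hsurj (Q + 1) (a j)
  have hWl : ∀ l j, χ l (s (W j)) = if j = l then 1 else 0 := by
    intro l j
    have h1 := hχc l _ ((⊤ : Subgroup G).lowerCentralSeries_antitone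
      (show 1 ≤ Q + 1 by omega) (hW j))
    have h2 := hχ l (s (W j)) ((s (W j))⁻¹ * a j)
    rw [mul_inv_cancel_left, h1, add_zero, hχa] at h2
    exact h2.symm
  set μ : FreeGroup (Fin r) →* (NC (Fin r) ℚ)ˣ := FreeGroup.lift fun j => φ (W j) with hμdef
  have hμ : ∀ j, OrdGE (fun _ => 1) (1 + 1)
      ((μ (FreeGroup.of j) : NC (Fin r) ℚ) - 1 - NC.letter j) := by
    intro j v hv
    have hv2 : v.length < 2 := by
      have : wt (fun _ : Fin r => 1) v = v.length := by simp [wt]
      omega
    rw [NC.sub_apply, NC.sub_apply, hμdef, FreeGroup.lift_apply_of]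
    match v, hv2 with
    | [], _ => rw [hφnil, NC.one_nil, NC.letter_nil]; ring
    | [l], _ =>
      rw [hφl, NC.one_cons, hWl]
      change (if j = l then (1 : ℚ) else 0) - 0 - (if [l] = [j] then (1 : ℚ) else 0) = 0
      by_cases hjl : j = l
      · subst hjl
        simp
      · have : ¬ ([l] = [j]) := by
          intro h
          exact hjl (List.cons.inj h).1.symm
        rw [if_neg hjl, if_neg this]
        ring
  have hμφ : μ w = φ (FreeGroup.lift W w) := by
    have : μ = φ.comp (FreeGroup.lift W) := by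
      ext1 j
      simp [hμdef]
    rw [this]
    rfl
  have hsw : s (FreeGroup.lift W w) ∈ lcs G (Q + 1) := by
    have h1 : (QuotientGroup.mk' (lcs G (Q + 1))).comp (s.comp (FreeGroup.lift W)) =
        (QuotientGroup.mk' (lcs G (Q + 1))).comp (FreeGroup.lift a) := by
      ext1 j
      simp only [MonoidHom.comp_apply, FreeGroup.lift_apply_of]
      exact QuotientGroup.eq.2 (hW j)
    have h2 := DFunLike.congr_fun h1 w
    simp only [MonoidHom.comp_apply] at h2
    rw [hw, map_one] at h2
    exact (QuotientGroup.eq_one_iff _).1 h2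
  have hw' := hinj _ _ hsw
  have hN := ordSub_isNSeries (fun _ : Fin r => 1) (fun _ => one_pos) φ hφnil
  have hord := lcs_le_of_isNSeries hN (Q + 1) hw'
  rw [mem_ordSub, ← hμφ] at hord
  have hfin := magnus_weighted (fun _ => 1) (fun _ => one_pos) μ hμ (Q + 1 + 1) w hord
  rw [gam_one_succ] at hfin
  exact hfin

end Pool.Agent.Helper16.PC
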